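import Pool.Agent.Helper28.TH.StW
import Pool.Agent.Helper28.TLV.M_FinV

/-!
# The Eichler potentials of a newform of level `2 p^(ν+2)` with `f | W_2 = f` and root number `+1` satisfy `IDataH`
-/

set_option autoImplicit false

namespace Pool.Agent.Helper28.THW

open Pool.Agent.Helper14.CV (G0 Homog EqC act)
open Pool.Agent.Helper14.WK
open Pool.Agent.Helper28.WK
open Pool.Agent.Helper28.TL (IsNewN trace_zero shift_zero)
open Pool.Agent.Helper28.TH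
open Pool.Agent.Helper93.TLH

/-- The relation for the matrices of determinant `q`, weight `2A+2`. -/
theorem eqq_of (hP2 : SKP2) (q M : ℕ) (hq : 0 < q) (N : ℕ) (hne : NeZero N) (A : ℕ)
    (f : CuspForm (G0 N) (2 * A + 2)) (hal : ALPlus q M f) (I : ℤ → ℤ → ℕ → ℂ)
    (hI : IsPotK A f I) :
    ∀ α β γ δ : ℤ, α * δ - β * γ = q → (q : ℤ) ∣ α → (q : ℤ) ∣ δ → (q : ℤ) * (M : ℤ) ∣ γ →
    ∀ i : ℕ, i ≤ 2 * A →
    EqC (((q : ℤ) ^ A) • act α β γ δ (cp I i)) (pr I ((Polynomial.C α * Polynomial.X + Polynomial.C β) ^ i *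
      (Polynomial.C γ * Polynomial.X + Polynomial.C δ) ^ (2 * A - i))) := by
  intro a b c d hdet ha hd hc i hi
  obtain ⟨a', rfl⟩ := ha
  obtain ⟨d', rfl⟩ := hd
  obtain ⟨c', rfl⟩ := hc
  have hq0 : (q : ℤ) ≠ 0 := by exact_mod_cast hq.ne'
  have hqc : (q : ℂ) ≠ 0 := by exact_mod_cast hq.ne'
  have h1 : (q : ℤ) * (a' * d') - M * (b * c') = 1 := by
    have h2 : (q : ℤ) * ((q : ℤ) * (a' * d') - M * (b * c')) = q * 1 := by
      rw [mul_one]
      linear_combination hdet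
    exact mul_left_cancel₀ hq0 h2
  obtain ⟨C, hC⟩ := hP2 N hne A f I (q * a') b (q * M * c') (q * d') (((q : ℂ) ^ (A + 1))⁻¹) hI
    (by rw [hdet]; exact_mod_cast hq) (fun z hz => by
      have h3 := hal a' b c' d' h1 z hz
      push_cast
      rw [h3]
      have e2 : (2 * (A : ℤ) + 2 : ℤ) / 2 = ((A + 1 : ℕ) : ℤ) := by push_cast; omega
      have e3 : ∀ w : ℂ, w ^ (2 * (A : ℤ) + 2 : ℤ) = w ^ (2 * A + 2 : ℕ) := fun w => by
        rw [show (2 * (A : ℤ) + 2 : ℤ) = ((2 * A + 2 : ℕ) : ℤ) by push_cast; ring, zpow_natCast]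
      rw [e2, zpow_natCast, e3]
      ring) i hi
  refine ⟨(q : ℂ) ^ A * C, fun x y hxy => ?_⟩
  have h4 := hC x y hxy
  rw [hdet] at h4
  have e4 : (q : ℂ) ^ A * ((((q : ℂ) ^ (A + 1))⁻¹ * (((q : ℤ)) : ℂ))) = 1 := by
    push_cast
    rw [pow_succ]
    field_simp
  have e5 : (((q : ℤ) ^ A) • act (q * a') b (q * M * c') (q * d') (cp I i)) x y =
      (q : ℂ) ^ A * I (q * a' * x + b * y) (q * M * c' * x + q * d' * y) i := by
    simp only [Pi.smul_apply, act, cp, zsmul_eq_mul]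
    push_cast
    rfl
  rw [e5, h4, mul_add, ← mul_assoc, e4, one_mul]
  rfl

theorem hBrgH (hA4 : SKA4) (hMod : SKMod) (hP1 : SKP1) (hP2 : SKP2) (hH3 : SKH3) (hA8 : SKA8)
    (hN2 : SKN2) (hN3 : SKN3) (hP5 : SKP5) (hP6 : SKP6) (hP4 : SKP4)
    (p A ν : ℕ) (hp : p.Prime) (hne : NeZero (2 * p ^ (ν + 2)))
    (hk : 0 < (2 * A + 2 : ℤ))
    (f : CuspForm (G0 (2 * p ^ (ν + 2))) (2 * A + 2)) (hf : IsNewN f) (hal : ALPlus 2 (p ^ (ν + 2)) f)
    (hε : RootOneK hk f) :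
    ∃ I : ℤ → ℤ → ℕ → ℂ, IsPotK A f I ∧ IDataH p A ν I := by
  obtain ⟨I, hI, hinf⟩ := hA4 (2 * p ^ (ν + 2)) hne A f
  have hp0 : p ^ (ν + 2) ≠ 0 := pow_ne_zero _ hp.ne_zero
  have hp1 : p ^ (ν + 1) ≠ 0 := pow_ne_zero _ hp.ne_zero
  have tpa := trace_zero hN2 hN3 p (2 * p ^ (ν + 1)) hp ((dvd_pow_self p (by omega)).mul_left 2)
    (mul_ne_zero (by norm_num) hp1) A (2 * p ^ (ν + 2)) (by ring) f hf
  have tpb := shift_zero hA8 p (2 * p ^ (ν + 1)) hp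
    (mul_ne_zero (by norm_num) hp1) A (2 * p ^ (ν + 2)) (by ring) hk f tpa hε
  refine ⟨I, hI, ?_⟩
  constructor
  · exact hP1 _ hne A f I hI
  · exact hinf
  · intro α β γ δ hdet hγ i hi
    have hM := hMod (2 * p ^ (ν + 2)) hne A f α β γ δ hdet (by push_cast; exact hγ)
    obtain ⟨C, hC⟩ := hP2 (2 * p ^ (ν + 2)) hne A f I α β γ δ 1 hI (by rw [hdet]; norm_num)
      (fun z hz => by rw [hM z hz, one_mul]) i hi
    refine ⟨C, fun x y hxy => ?_⟩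
    have h1 := hC x y hxy
    rw [hdet] at h1
    simp only [Int.cast_one, one_mul, mp] at h1
    exact h1
  · intro α β γ δ hdet hα hδ hγ i hi
    have := eqq_of hP2 2 (p ^ (ν + 2)) two_pos (2 * p ^ (ν + 2)) hne A f hal I hI α β γ δ
      (by exact_mod_cast hdet) (by exact_mod_cast hα) (by exact_mod_cast hδ) (by push_cast; exact_mod_cast hγ) i hi
    exact_mod_cast this
  · intro j hj
    refine ⟨0, fun x y hxy => ?_⟩
    have h1 := hP5 (2 * p ^ (ν + 2)) hne A f I p hp.pos hI (fun z hz => tpb z hz) j hj x y hxy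
    simp only [Pi.zero_apply, add_zero]
    exact h1
  · intro j hj
    obtain ⟨C, hC⟩ := hP6 (2 * p ^ (ν + 2)) hne A f I p (2 * p ^ (ν + 1)) hI tpa j hj
    refine ⟨C, fun x y hxy => ?_⟩
    have h1 := hC x y hxy
    simp only [Pi.zero_apply, zero_add]
    rw [← h1]
    refine Finset.sum_congr rfl fun i _ => ?_
    have e1 : (Polynomial.X ^ j * (1 - Polynomial.C (2 * (p : ℤ) ^ (ν + 1) * i) * Polynomial.X) ^
        (2 * A - j) : Polynomial ℤ) = mp A 1 0 (-(i * (2 * p ^ (ν + 1) : ℕ) : ℤ)) 1 j := by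
      unfold mp
      congr 1
      · simp
      · congr 1
        push_cast
        simp only [Polynomial.C_mul, Polynomial.C_neg, Polynomial.C_1]
        ring
    rw [e1]
    congr 1
    push_cast
    ring
  · have h1 := hP4 (2 * p ^ (ν + 2)) hne A f I hI (hA8 (2 * p ^ (ν + 2)) hne A hk f hε)
    have e : ((2 * p ^ (ν + 2) : ℕ) : ℤ) = 2 * (p : ℤ) ^ (ν + 2) := by push_cast; rfl
    rw [← e]
    exact h1
  · refine ⟨fun l => fcK f l, fun l m hl hlp hl2 hm i hi x y hxy => ?_⟩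
    have hlN : ¬ l ∣ 2 * p ^ (ν + 2) := by
      intro h
      rcases (Nat.Prime.dvd_mul hl).1 h with h | h
      · exact hl2 ((Nat.prime_dvd_prime_iff_eq hl Nat.prime_two).1 h)
      · exact hlp ((Nat.prime_dvd_prime_iff_eq hl hp).1 (hl.dvd_of_dvd_pow h))
    exact hH3 (2 * p ^ (ν + 2)) hne A f I l (fcK f l) m hI hl.pos (hf.hecke l hl hlN) hm i hi x y hxy

/-- Level `2 p^n`, `n ≥ 2` (`n = ν + 2`). -/
theorem hFinH (hTr : SHTr) (hAll : SHAll) (p : ℕ) (hp : p.Prime) (hp2 : p ≠ 2)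
    (A ν : ℕ) (hA : 1 ≤ A)
    (hQC : ∀ Φ : ℤ → ℤ → ℕ → ℂ, WSymH p A ν Φ → EqC (cp Φ A) 0) (hne : NeZero (2 * p ^ (ν + 2)))
    (hk : 0 < (2 * A + 2 : ℤ))
    (f : CuspForm (G0 (2 * p ^ (ν + 2))) (2 * A + 2)) (hf : IsNewN f) (hal : ALPlus 2 (p ^ (ν + 2)) f)
    (hε : RootOneK hk f) : LanK hk f (1 / 2) ≠ 0 := by
  intro hL
  obtain ⟨a4, kmod, p1, p2, h3, a8, n2, n3, p5, p6, p4, a5, kin⟩ := Pool.Agent.Helper28.TLV.ana
  obtain ⟨I, hI, hD⟩ := hBrgH a4 kmod p1 p2 h3 a8 n2 n3 p5 p6 p4 p A ν hp hne hk f hf hal hε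
  have h0 := a5 (2 * p ^ (ν + 2)) hne A hk f I hI hL
  have hW := hTr p A ν I hp hp2 hD h0
  have hc := hAll p A ν _ hp hW (hQC _ hW)
  have hz := Pool.Agent.Helper28.TLV.hTr2V p A I hp.ne_zero hD.hom hD.inf hc
  have h1 := kin (2 * p ^ (ν + 2)) hne A f I hA hI hz 1 le_rfl
  rw [hf.normalised] at h1
  exact one_ne_zero h1

end Pool.Agent.Helper28.THW
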